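import Pool.Agent.Lib.MP_50b5e1_nt.U.U24
import Pool.Agent.Lib.MP_50b5e1_nt.R.RC

/-!
# Only finitely many solutions with `gcd(k₁, k₂) ≥ 2` and `(k₁ - k₂) k₂ gcd(k₁, k₂) ≥ ε k₁² log k₁`
-/

set_option autoImplicit false

open Pool.Agent.Lib.MP_50b5e1_nt

/-- For every `ε > 0` there are only finitely many `(m₁, k₁, m₂, k₂)` with `k₁, k₂ > 3`, `m₁ + k₁ ≤ m₂`,
`(m₁+1)⋯(m₁+k₁) = (m₂+1)⋯(m₂+k₂)`, `gcd(k₁, k₂) ≥ 2` and `(k₁ - k₂) k₂ gcd(k₁, k₂) ≥ ε k₁² log k₁`. -/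
theorem Pool.Agent.Results.MP_50b5e1_nt.CommonDivisor.result (ε : ℝ) (hε : 0 < ε) :
    {q : ℕ × ℕ × ℕ × ℕ | 3 < q.2.1 ∧ 3 < q.2.2.2 ∧ q.1 + q.2.1 ≤ q.2.2.1 ∧
      ∏ i ∈ Finset.Icc 1 q.2.1, (q.1 + i) = ∏ j ∈ Finset.Icc 1 q.2.2.2, (q.2.2.1 + j) ∧
      2 ≤ Nat.gcd q.2.1 q.2.2.2 ∧
      ε * (q.2.1 : ℝ) ^ 2 * Real.log (q.2.1 : ℝ)
        ≤ ((q.2.1 : ℝ) - (q.2.2.2 : ℝ)) * (q.2.2.2 : ℝ)
          * ((Nat.gcd q.2.1 q.2.2.2 : ℕ) : ℝ)}.Finite := by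
  -- the bounded part
  set B : ℝ := Real.exp (1 / (2 * ε)) with hB
  set N : ℕ := ⌊Real.exp (16 * B ^ 2 * B)⌋₊ with hN
  have hfin2 : Set.Finite ((Set.Iic N) ×ˢ (Set.Iic N) ×ˢ (Set.Iic N) ×ˢ (Set.Iic N) :
      Set (ℕ × ℕ × ℕ × ℕ)) :=
    (Set.finite_Iic N).prod ((Set.finite_Iic N).prod ((Set.finite_Iic N).prod (Set.finite_Iic N)))
  refine ((finite_log (ε / 19) (by positivity)).union hfin2).subset ?_
  rintro ⟨m₁, k₁, m₂, k₂⟩ ⟨h1, h2, h3, h4, h5, h6⟩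
  simp only at h1 h2 h3 h4 h5 h6
  have h : IsSol m₁ k₁ m₂ k₂ := ⟨h1, h2, h3, h4⟩
  have hlt := h.lt
  have hk1 : (4 : ℝ) ≤ k₁ := by exact_mod_cast (by omega : 4 ≤ k₁)
  have hk2 : (0 : ℝ) < k₂ := by exact_mod_cast (by omega : 0 < k₂)
  have hltr : (k₂ : ℝ) < k₁ := by exact_mod_cast hlt
  have hK1 : 1 < Real.log k₁ :=
    lt_of_lt_of_le U.one_lt_log_four (Real.log_le_log (by norm_num) hk1)
  have hg : (0 : ℝ) < (Nat.gcd k₁ k₂ : ℕ) := by exact_mod_cast (by omega : 0 < Nat.gcd k₁ k₂)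
  by_cases hd : 3 ≤ Nat.gcd k₁ k₂
  · left
    refine ⟨h, ?_⟩
    simp only
    obtain ⟨a, ha⟩ := Nat.gcd_dvd_left k₁ k₂
    obtain ⟨b, hb⟩ := Nat.gcd_dvd_right k₁ k₂
    have ha' : k₁ = a * Nat.gcd k₁ k₂ := by rw [mul_comm]; exact ha
    have hb' : k₂ = b * Nat.gcd k₁ k₂ := by rw [mul_comm]; exact hb
    have h7 := U.linear_m2 h hd ha' hb'
    have hb0 : (0 : ℝ) < b := by
      rcases Nat.eq_zero_or_pos b with h0 | h0
      · rw [h0] at hb'; omega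
      · exact_mod_cast h0
    have q1 : (k₁ : ℝ) = a * (Nat.gcd k₁ k₂ : ℕ) := by exact_mod_cast ha'
    have q2 : (k₂ : ℝ) = b * (Nat.gcd k₁ k₂ : ℕ) := by exact_mod_cast hb'
    set g : ℝ := ((Nat.gcd k₁ k₂ : ℕ) : ℝ) with hgd
    have h8 : ε / 19 * Real.log m₂ * ((k₂ : ℝ) * g) ≤ ε * (k₁ : ℝ) ^ 2 * Real.log k₁ := by
      have e1 := mul_le_mul_of_nonneg_left h7 (by positivity : 0 ≤ ε / 19 * ((k₂ : ℝ) * g))
      have e2 : ε / 19 * ((k₂ : ℝ) * g) * (19 * a * ((a : ℝ) / b) * Real.log k₁)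
          = ε * (k₁ : ℝ) ^ 2 * Real.log k₁ := by
        rw [q2]
        have : (k₁ : ℝ) ^ 2 = (a * g) ^ 2 := by rw [← q1]
        rw [this]
        field_simp
      rw [e2] at e1
      linarith
    have h9 : ε / 19 * Real.log m₂ * ((k₂ : ℝ) * g) ≤ ((k₁ : ℝ) - k₂) * ((k₂ : ℝ) * g) := by
      linarith
    exact le_of_mul_le_mul_right h9 (by positivity)
  · right
    have hd2 : Nat.gcd k₁ k₂ = 2 := by omega
    have h7 := U.bound_m2 h h5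
    rw [hd2] at h6 h7
    push_cast at h6 h7
    have h8 : ((k₁ : ℝ) - k₂) * k₂ * 2 ≤ (k₁ : ℝ) ^ 2 / 2 := by
      nlinarith [sq_nonneg ((k₁ : ℝ) - 2 * k₂)]
    have h9 : Real.log k₁ ≤ 1 / (2 * ε) := by
      rw [le_div_iff₀ (by positivity)]
      have e1 : (k₁ : ℝ) ^ 2 * (2 * ε * Real.log k₁) ≤ (k₁ : ℝ) ^ 2 * 1 := by linarith
      have := le_of_mul_le_mul_left e1 (by positivity)
      linarith
    have h10 : (k₁ : ℝ) ≤ B := by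
      rw [hB, ← Real.log_le_iff_le_exp (by linarith)]
      exact h9
    have h11 : Real.log (k₁ : ℝ) ≤ B :=
      ((Real.log_le_sub_one_of_pos (by linarith)).trans (by linarith)).trans h10
    have h12 : Real.log m₂ ≤ 16 * B ^ 2 * B := by
      refine h7.trans ?_
      have e1 : ((k₁ : ℝ) / 2) ^ 2 ≤ B ^ 2 :=
        pow_le_pow_left₀ (by positivity) (by linarith) 2
      have e2 : 16 * ((k₁ : ℝ) / 2) ^ 2 ≤ 16 * B ^ 2 := by linarith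
      exact mul_le_mul e2 h11 (by linarith) (by positivity)
    have h13 : m₂ ≤ N := by
      apply Nat.le_floor
      have e1 := Real.exp_le_exp.2 h12
      rwa [Real.exp_log (by exact_mod_cast (by omega : 0 < m₂))] at e1
    simp only [Set.mem_prod, Set.mem_Iic]
    omega
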