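import Pool.Agent.Lib.MP_50b5e1_nt.R.RC

/-!
# Only finitely many solutions with `k₁ - k₂ ≥ c log m₂`, for every `c > 0`
-/

open Pool.Agent.Lib.MP_50b5e1_nt

/-- For every `c > 0` there are only finitely many `(m₁, k₁, m₂, k₂)` with `k₁, k₂ > 3`, `m₁ + k₁ ≤ m₂`,
`(m₁+1)⋯(m₁+k₁) = (m₂+1)⋯(m₂+k₂)` and `k₁ - k₂ ≥ c log m₂`. -/
theorem Pool.Agent.Results.MP_50b5e1_nt.LengthDifference.result (c : ℝ) (hc : 0 < c) :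
    {q : ℕ × ℕ × ℕ × ℕ | 3 < q.2.1 ∧ 3 < q.2.2.2 ∧ q.1 + q.2.1 ≤ q.2.2.1 ∧
      ∏ i ∈ Finset.Icc 1 q.2.1, (q.1 + i) = ∏ j ∈ Finset.Icc 1 q.2.2.2, (q.2.2.1 + j) ∧
      c * Real.log (q.2.2.1 : ℝ) ≤ (q.2.1 : ℝ) - (q.2.2.2 : ℝ)}.Finite := by
  refine (finite_log c hc).subset ?_
  rintro q ⟨h1, h2, h3, h4, h5⟩
  exact ⟨⟨h1, h2, h3, h4⟩, h5⟩
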