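import Pool.Agent.Lib.MP_50b5e1_nt.U.U24

/-!
# Equal products of two disjoint blocks whose lengths have a common divisor: explicit uniform bounds
-/

set_option autoImplicit false

open Pool.Agent.Lib.MP_50b5e1_nt

/-- Every solution satisfies `(k₁ - k₂) k₂ gcd(k₁, k₂) ≤ 30 k₁² log k₁`.  If `d = gcd(k₁, k₂) ≥ 3` then
`log m₁ ≤ 18 (k₁/d) log k₁` and `log m₂ ≤ 19 (k₁/d)(k₁/k₂) log k₁`; if `gcd(k₁, k₂) = 2` then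
`log m₁ ≤ 4 k₁ k₂ log k₁`.  Only finitely many solutions with `d ≥ 3` satisfy
`40 (k₁/d)(k₁/k₂) log log m₂ ≤ log m₂`. -/
theorem Pool.Agent.Results.MP_50b5e1_nt.UniformRunge.result :
    (∀ m₁ k₁ m₂ k₂ : ℕ, 3 < k₁ → 3 < k₂ → m₁ + k₁ ≤ m₂ →
      ∏ i ∈ Finset.Icc 1 k₁, (m₁ + i) = ∏ j ∈ Finset.Icc 1 k₂, (m₂ + j) →
      ((k₁ : ℝ) - k₂) * k₂ * (Nat.gcd k₁ k₂ : ℕ) ≤ 30 * (k₁ : ℝ) ^ 2 * Real.log k₁ ∧
      (Nat.gcd k₁ k₂ = 2 → Real.log m₁ ≤ 4 * k₁ * k₂ * Real.log k₁) ∧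
      (3 ≤ Nat.gcd k₁ k₂ →
        Real.log m₁ ≤ 18 * ((k₁ : ℝ) / (Nat.gcd k₁ k₂ : ℕ)) * Real.log k₁ ∧
        Real.log m₂ ≤ 19 * ((k₁ : ℝ) / (Nat.gcd k₁ k₂ : ℕ)) * ((k₁ : ℝ) / k₂) * Real.log k₁)) ∧
    {q : ℕ × ℕ × ℕ × ℕ | 3 < q.2.1 ∧ 3 < q.2.2.2 ∧ q.1 + q.2.1 ≤ q.2.2.1 ∧
      ∏ i ∈ Finset.Icc 1 q.2.1, (q.1 + i) = ∏ j ∈ Finset.Icc 1 q.2.2.2, (q.2.2.1 + j) ∧
      3 ≤ Nat.gcd q.2.1 q.2.2.2 ∧
      40 * ((q.2.1 : ℝ) / (Nat.gcd q.2.1 q.2.2.2 : ℕ)) * ((q.2.1 : ℝ) / (q.2.2.2 : ℝ))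
        * Real.log (Real.log (q.2.2.1 : ℝ)) ≤ Real.log (q.2.2.1 : ℝ)}.Finite := by
  constructor
  · intro m₁ k₁ m₂ k₂ h1 h2 h3 h4
    have h : IsSol m₁ k₁ m₂ k₂ := ⟨h1, h2, h3, h4⟩
    refine ⟨U.lengths h, ?_, ?_⟩
    · intro hg
      have h5 := U.uniform_bound h (by omega)
      refine h5.trans ?_
      rw [hg]
      have hK : 0 ≤ Real.log (k₁ : ℝ) := Real.log_natCast_nonneg _
      refine mul_le_mul_of_nonneg_right ?_ hK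
      have : (0 : ℝ) ≤ (k₁ : ℝ) * k₂ := by positivity
      push_cast
      linarith
    · intro hg
      have hd0 : (0 : ℝ) < (Nat.gcd k₁ k₂ : ℕ) := by
        exact_mod_cast (by omega : 0 < Nat.gcd k₁ k₂)
      obtain ⟨a, ha⟩ := Nat.gcd_dvd_left k₁ k₂
      obtain ⟨b, hb⟩ := Nat.gcd_dvd_right k₁ k₂
      have ha' : k₁ = a * Nat.gcd k₁ k₂ := by rw [mul_comm]; exact ha
      have hb' : k₂ = b * Nat.gcd k₁ k₂ := by rw [mul_comm]; exact hb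
      have hb0 : (0 : ℝ) < b := by
        rcases Nat.eq_zero_or_pos b with h0 | h0
        · rw [h0] at hb'; omega
        · exact_mod_cast h0
      have e1 : (k₁ : ℝ) / (Nat.gcd k₁ k₂ : ℕ) = a := by
        rw [div_eq_iff hd0.ne']
        exact_mod_cast ha'
      have e2 : (k₁ : ℝ) / k₂ = (a : ℝ) / b := by
        have q1 : (k₁ : ℝ) = a * (Nat.gcd k₁ k₂ : ℕ) := by exact_mod_cast ha'
        have q2 : (k₂ : ℝ) = b * (Nat.gcd k₁ k₂ : ℕ) := by exact_mod_cast hb'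
        rw [q1, q2, mul_div_mul_right _ _ hd0.ne']
      rw [e1, e2]
      exact ⟨U.bound_linear h hg ha' hb', U.linear_m2 h hg ha' hb'⟩
  · refine U.finite_set3.subset ?_
    rintro q ⟨h1, h2, h3, h4, h5, h6⟩
    exact ⟨⟨h1, h2, h3, h4⟩, h5, h6⟩
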